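import Pool.Agent.H416R3.GD.Goddyn

set_option autoImplicit false

/-!
# MP_5dc923_co: faithful circuit covers for eulerian weights `w ≥ 2`
-/

namespace Pool.Agent.Results.MP_5dc923_co.EvenPartCovers

open Finset
open Pool.Agent.H126R2.CDC (MGraph)
open Pool.Agent.H825R2.EW (cut cross)

/-- Goddyn's conjecture on faithful circuit covers of eulerian weights `w` (odd values allowed) in
the following cases.  `cut G univ X` is the edge cut of `X`, `cross G W c` the set of the edges of
`G[W]` joining different classes of the partition of `W` given by the values of `c`.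

* (near-constant) `w ≥ 2` is admissible and `8 ⌊w e / 2⌋ ≤ 9 ⌊w f / 2⌋` for all edges `e`, `f`;
  in particular all admissible `w` with values in `{2, 3}`.
* (level sets) every level set `{w ≥ 2 j}`, `j ≥ 1`, is bridgeless.
* (half strength) every edge `e` lies in a vertex set `W` such that the values `⌊w f / 2⌋` between
  the classes of every partition of `W` into `n` classes sum to at least `2 ⌊w e / 2⌋ (n - 1)`,
  provided that no edge `f` between the classes has `⌊w f / 2⌋ > ⌊w e / 2⌋`.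
* (bounded ratio) `l ≤ ⌊w e / 2⌋ ≤ h`, `l + h` is even and every edge cut has at least
  `2 (l + h) / l` edges. -/
theorem result {V E : Type} [Fintype V] [DecidableEq V] [Fintype E] [DecidableEq E]
    (G : MGraph V E) (w : E → ℕ) (heul : ∀ X : Finset V, Even (∑ e ∈ cut G univ X, w e)) :
    ((∀ X : Finset V, ∀ e ∈ cut G univ X, 2 * w e ≤ ∑ f ∈ cut G univ X, w f) →
      (∀ e, 2 ≤ w e) → (∀ e f, 8 * (w e / 2) ≤ 9 * (w f / 2)) →
      ∃ F : Multiset (Finset E), (∀ C ∈ F, G.IsCircuit C) ∧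
        ∀ e, F.countP (fun C => e ∈ C) = w e) ∧
    ((∀ j : ℕ, 1 ≤ j → ∀ X : Finset V,
        ((cut G univ X).filter (fun e => 2 * j ≤ w e)).card ≠ 1) →
      ∃ F : Multiset (Finset E), (∀ C ∈ F, G.IsCircuit C) ∧
        ∀ e, F.countP (fun C => e ∈ C) = w e) ∧
    ((∀ e, ∃ W : Finset V, (∀ v ∈ G.ends e, v ∈ W) ∧
        ∀ c : V → ℕ, (∀ f ∈ cross G W c, w f / 2 ≤ w e / 2) →
          2 * (w e / 2) * ((W.image c).card - 1) ≤ ∑ f ∈ cross G W c, w f / 2) →
      ∃ F : Multiset (Finset E), (∀ C ∈ F, G.IsCircuit C) ∧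
        ∀ e, F.countP (fun C => e ∈ C) = w e) ∧
    (∀ l h : ℕ, (∀ e, l ≤ w e / 2 ∧ w e / 2 ≤ h) → Even (l + h) →
      (∀ X : Finset V, X.Nonempty → X ≠ univ → 2 * (l + h) ≤ l * (cut G univ X).card) →
      ∃ F : Multiset (Finset E), (∀ C ∈ F, G.IsCircuit C) ∧
        ∀ e, F.countP (fun C => e ∈ C) = w e) := by
  refine ⟨fun ha h2 hr => ?_, fun hl => ?_, fun h => ?_, fun l h h1 h2 h3 => ?_⟩
  · exact Pool.Agent.H416R3.GD.goddyn_near G w heul ha h2 hr
  · exact Pool.Agent.H416R3.GD.goddyn_level G w heul hl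
  · exact Pool.Agent.H416R3.GD.goddyn_half G w heul h
  · exact Pool.Agent.H416R3.GD.goddyn_ratio G w heul l h (fun e => (h1 e).1) (fun e => (h1 e).2)
      h2 h3

end Pool.Agent.Results.MP_5dc923_co.EvenPartCovers
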