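import Pool.Agent.H655R2.GOD.Main

set_option autoImplicit false

/-!
Goddyn's conjecture for eulerian admissible weights which are near-constant after the removal of
multiples of the subgraph of the edges of odd weight.
-/

namespace Pool.Agent.Results.MP_5dc923_co.NearConstant

open Pool.Agent.H126R2.CDC (MGraph)
open Pool.Agent.H655R2.GOD (cut)

/-- Let `w` be a positive eulerian admissible weight of a finite graph `G`, and let `1_O` be the
characteristic function of the set `O` of the edges of odd weight. Suppose that for some `k` one of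
`q = w - k 1_O`, `q = w + k 1_O - 4 k` is a nonnegative even weight with `8 q(e) ≤ 9 q(f)` for all
edges `e`, `f`. Then `(G, w)` has a faithful circuit cover. -/
theorem result (V E : Type) [Fintype V] [DecidableEq V] [Fintype E] [DecidableEq E]
    (G : MGraph V E) (w : E → ℕ) (hpos : ∀ e, 0 < w e)
    (heul : ∀ X : Finset V, Even (∑ e ∈ cut G X, w e))
    (hadm : ∀ X : Finset V, ∀ e ∈ cut G X, 2 * w e ≤ ∑ f ∈ cut G X, w f)
    (q : E → ℕ) (hq : ∀ e, Even (q e)) (hr : ∀ e f, 8 * q e ≤ 9 * q f) (k : ℕ)
    (hk : (∀ e, w e = q e + k * (w e % 2)) ∨ (∀ e, w e + k * (w e % 2) = q e + 4 * k)) :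
    ∃ F : Multiset (Finset E), (∀ C ∈ F, G.IsCircuit C) ∧
      ∀ e, F.countP (fun C => e ∈ C) = w e :=
  Pool.Agent.H655R2.GOD.near G w hpos heul hadm q hq hr k hk

end Pool.Agent.Results.MP_5dc923_co.NearConstant
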